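import Mathlib
import Pool.Agent.H.MP_941e3e_gt.A
import Pool.Agent.H.MP_a1e9e0_gt.A

namespace Pool.Agent.Results.MP_06c979_gt.Image

open Set Function Filter Topology Cardinal Pool.Agent.H.MP_941e3e_gt

theorem big {D : Type} (Q : Set (Ultrafilter D)) (h : Q.Infinite) : ∃ q : ℕ → Q,
    Injective fun u : Ultrafilter ℕ => u.bind fun n => (q n).1 := by
  have := h.to_subtype
  obtain ⟨U, u1, u2, u3⟩ := exists_seq_infinite_isOpen_pairwise_disjoint Q
  choose q hq using fun n => (u1 n).nonempty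
  have : ∀ n, ∃ A ∈ (q n).1, ∀ m, m ≠ n → A ∉ (q m).1 := fun n => by
    obtain ⟨O, k, l⟩ := u2 n
    obtain ⟨_, ⟨A, rfl⟩, m, p⟩ := ultrafilterBasis_is_basis.exists_subset_of_mem_open
      (show (q n).1 ∈ O from (l.ge (hq n) :)) k
    exact ⟨A, m, fun j a b => disjoint_left.1 (u3 a) (hq j) (l.le (p b))⟩
  choose A a1 a2 using this
  have k : ∀ S : Set ℕ, {n | (⋃ m ∈ S, disjointed A m) ∈ (q n).1} = S := fun S => by
    have d : ∀ n, disjointed A n ∈ (q n).1 := fun n => by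
      rw [disjointed_eq_inter_compl]
      exact inter_mem (a1 n) ((biInter_mem (finite_Iio n)).2 fun j l =>
        Ultrafilter.compl_mem_iff_notMem.2 (a2 j n (ne_of_gt l)))
    refine Set.ext fun n => ⟨fun k => ?_, fun k => mem_of_superset (d n) (subset_biUnion_of_mem k)⟩
    obtain ⟨x, l, m⟩ := Ultrafilter.nonempty_of_mem (inter_mem k (d n))
    obtain ⟨j, p, r⟩ := mem_iUnion₂.1 l
    exact by_contra fun s => disjoint_left.1 (disjoint_disjointed A fun e : j = n => s (e ▸ p)) r m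
  refine ⟨q, fun u v e => Ultrafilter.ext fun S => ?_⟩
  have := congrArg ((⋃ m ∈ S, disjointed A m) ∈ ·) e
  rw [← k S]
  exact iff_of_eq this

theorem bern {X : Type} [TopologicalSpace X] (A : Set X)
    (h : ∀ F : Set X, IsClosed F → F.Infinite → (F ∩ A).Nonempty ∧ (F \ A).Nonempty) : SymWO X := by
  classical
  obtain ⟨wo, hwo⟩ := exists_wellFoundedLT X
  let g : X → X ⊕ₗ Xᵒᵈ := fun x =>
    if x ∈ A then toLex (Sum.inl x) else toLex (Sum.inr (OrderDual.toDual x))
  have hg : Injective g := by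
    intro x y e
    by_cases hx : x ∈ A <;> by_cases hy : y ∈ A <;> simp [g, hx, hy] at e <;> exact e
  refine ⟨LinearOrder.lift' g hg, fun F hF hne => ?_⟩
  show (∃ a ∈ F, ∀ b ∈ F, g a ≤ g b) ∧ ∃ a ∈ F, ∀ b ∈ F, g b ≤ g a
  by_cases hfin : F.Finite
  · exact ⟨Set.exists_min_image F g hfin hne, Set.exists_max_image F g hfin hne⟩
  obtain ⟨h1, h2⟩ := h F hF hfin
  constructor
  · have m := (wellFounded_lt (α := X)).min_mem _ h1
    refine ⟨_, m.1, fun b hb => ?_⟩
    by_cases hbA : b ∈ A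
    · have := not_lt.mp ((wellFounded_lt (α := X)).not_lt_min (F ∩ A) ⟨hb, hbA⟩)
      simpa [g, m.2, hbA] using this
    · simp [g, m.2, hbA]
  · have m := (wellFounded_lt (α := X)).min_mem _ h2
    refine ⟨_, m.1, fun b hb => ?_⟩
    by_cases hbA : b ∈ A
    · simp [g, m.2, hbA]
    · have := not_lt.mp ((wellFounded_lt (α := X)).not_lt_min (F \ A) ⟨hb, hbA⟩)
      simpa [g, m.2, hbA] using this

/-- ultrafilters containing a countable set -/
abbrev XX (D : Type) : Type := {u : Ultrafilter D // ∃ N ∈ u, N.Countable}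

theorem bind_mem {D : Type} (q : ℕ → XX D) (u : Ultrafilter ℕ) :
    ∃ N ∈ u.bind fun n => (q n).1, N.Countable := by
  choose N h1 h2 using fun n => (q n).2
  refine ⟨⋃ n, N n, ?_, countable_iUnion h2⟩
  show {n | (⋃ n, N n) ∈ (q n).1} ∈ (u : Filter ℕ)
  exact mem_of_superset univ_mem fun n _ => mem_of_superset (h1 n) (subset_iUnion N n)

theorem card_ultra : #(Ultrafilter ℕ) ≤ 2 ^ 𝔠 :=
  (mk_le_of_injective (f := fun u : Ultrafilter ℕ => u.1.sets)
    fun u v h => Ultrafilter.coe_injective (filter_eq h)).trans_eq (by simp)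

theorem al : ℵ₀ ≤ 2 ^ 𝔠 := aleph0_le_continuum.trans (cantor _).le

theorem card_seq {D : Type} (h : #D ≤ 2 ^ 𝔠) : #(ℕ → D) ≤ 2 ^ 𝔠 := by
  have : #(ℕ → D) = #D ^ ℵ₀ := by simp
  rw [this]
  refine (power_le_power_right h).trans_eq ?_
  rw [← power_mul, continuum_mul_aleph0]

theorem card_XX {D : Type} (h : #D ≤ 2 ^ 𝔠) : #(XX D) ≤ 2 ^ 𝔠 := by
  have : Surjective fun p : (ℕ → D) × Ultrafilter ℕ =>
      (⟨p.2.map p.1, range p.1, range_mem_map, countable_range _⟩ : XX D) := by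
    rintro ⟨u, N, hN, hc⟩
    obtain ⟨g, rfl⟩ := hc.exists_eq_range (Ultrafilter.nonempty_of_mem hN)
    have : (comap g (u : Filter D)).NeBot := NeBot.comap_of_range_mem u.neBot hN
    refine ⟨(g, Ultrafilter.of (comap g u)), Subtype.ext (Ultrafilter.eq_of_le ?_)⟩
    exact (map_mono (Ultrafilter.of_le _)).trans map_comap_le
  refine (mk_le_of_surjective this).trans ?_
  rw [mk_prod, lift_id, lift_id]
  exact (mul_le_mul' (card_seq h) card_ultra).trans_eq (mul_eq_self al)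

theorem sym_XX {D : Type} (h : #D ≤ 2 ^ 𝔠) : SymWO (XX D) := by
  let I := {q : ℕ → XX D // Injective fun u : Ultrafilter ℕ => u.bind fun n => (q n).1}
  let P : I × Bool → Set (XX D) := fun i =>
    range fun u : Ultrafilter ℕ => (⟨u.bind fun n => (i.1.1 n).1, bind_mem _ u⟩ : XX D)
  obtain ⟨t, ht, htP⟩ := Pool.Agent.H.MP_a1e9e0_gt.A.inj P fun i => by
    rw [mk_range_eq _ fun u v e => i.1.2 (congrArg Subtype.val e)]
    refine le_trans ?_ Pool.Agent.H.MP_a1e9e0_gt.A.pos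
    rw [mk_prod, lift_id, lift_id]
    refine (mul_le_mul' ((mk_subtype_le _).trans (card_seq (card_XX h)))
      (mk_le_aleph0.trans al)).trans_eq (mul_eq_self al)
  refine bern (range fun i : I => t (i, true)) fun F hF hinf => ?_
  obtain ⟨q, hq⟩ := big (Subtype.val '' F) (hinf.image Subtype.val_injective.injOn)
  choose r hr e using fun n => (q n).2
  have hi : Injective fun u : Ultrafilter ℕ => u.bind fun n => (r n).1 := by
    simp only [e]; exact hq
  have hsub : ∀ b, P (⟨r, hi⟩, b) ⊆ F := by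
    rintro b _ ⟨u, rfl⟩
    rw [← hF.closure_eq, closure_subtype]
    refine ultrafilterBasis_is_basis.mem_closure_iff.mpr ?_
    rintro _ ⟨B, rfl⟩ hB
    obtain ⟨n, hn⟩ := Ultrafilter.nonempty_of_mem (f := u) (s := {n | B ∈ (r n).1}) hB
    exact ⟨(r n).1, hn, r n, hr n, rfl⟩
  refine ⟨⟨t (⟨r, hi⟩, true), hsub _ (htP _), _, rfl⟩, t (⟨r, hi⟩, false), hsub _ (htP _), ?_⟩
  rintro ⟨i, e'⟩
  simpa using congrArg Prod.snd (ht e')

theorem cover (Y : Type) [TopologicalSpace Y] [T3Space Y]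
    (hω : ∀ N : Set Y, N.Countable → IsCompact (closure N)) (hY : #Y ≤ 2 ^ 𝔠) :
    ∃ (X : Type) (_ : TopologicalSpace X), T2Space X ∧ SymWO X ∧
      ∃ f : X → Y, Continuous f ∧ Surjective f := by
  have : ∀ u : XX Y, ∃ y, (u.1 : Filter Y) ≤ 𝓝 y := by
    rintro ⟨u, N, hN, hc⟩
    obtain ⟨y, -, hy⟩ := (hω N hc).ultrafilter_le_nhds u
      (le_principal_iff.mpr (mem_of_superset hN subset_closure))
    exact ⟨y, hy⟩
  choose f hf using this
  refine ⟨XX Y, inferInstance, inferInstance, sym_XX hY, f, ?_, fun y => ?_⟩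
  · refine continuous_iff_continuousAt.mpr fun u V hV => ?_
    obtain ⟨W, hW, hWc, hWV⟩ := exists_mem_nhds_isClosed_subset hV
    have h1 : {v : XX Y | W ∈ v.1} ∈ 𝓝 u :=
      ((ultrafilter_isOpen_basic W).preimage continuous_subtype_val).mem_nhds (hf u hW)
    exact mem_map.mpr (mem_of_superset h1 fun v hv =>
      hWV (hWc.mem_of_tendsto (f := id) (b := (v.1 : Filter Y)) (hf v) hv))
  · exact ⟨⟨pure y, {y}, by simp, countable_singleton y⟩,
      tendsto_nhds_unique (f := id) (hf _) (pure_le_nhds y)⟩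

theorem S_omega {α : Type} [LinearOrder α] [WellFoundedLT α] [TopologicalSpace α]
    [OrderTopology α] (hc : ℵ₀ < Order.cof α) (N : Set (S α)) (hN : N.Countable) :
    IsCompact (closure N) := by
  have hsub : closure (Subtype.val '' N) ⊆ S α := by
    intro x hx
    by_cases hxN : x ∈ Subtype.val '' N
    · obtain ⟨y, -, rfl⟩ := hxN
      exact y.2
    obtain ⟨h1, h2⟩ := lub_of_closure hx hxN
    obtain ⟨g, hg⟩ := ((hN.image Subtype.val).mono inter_subset_left).exists_eq_range h1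
    have hlt : ∀ n, g n < x := fun n => (hg.ge ⟨n, rfl⟩).2
    rw [hg] at h2
    have step : ∀ p : ℕ × Iio x, ∃ y : Iio x, p.2.1 < y.1 ∧ g p.1 ≤ y.1 := by
      rintro ⟨n, z⟩
      obtain ⟨_, ⟨m, rfl⟩, hm⟩ := (lt_isLUB_iff h2).mp (max_lt z.2 (hlt n))
      exact ⟨⟨g m, hlt m⟩, (le_max_left _ _).trans_lt hm, ((le_max_right _ _).trans_lt hm).le⟩
    choose F hF using step
    let s : ℕ → Iio x := fun n => Nat.rec ⟨g 0, hlt 0⟩ (fun n z => F (n, z)) n
    refine ⟨fun n => (s n).1, strictMono_nat_of_lt_succ (f := fun n => (s n).1)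
      fun n => (hF (n, s n)).1, ?_,
      fun z hz => h2.2 ?_⟩
    · rintro _ ⟨n, rfl⟩; exact (s n).2.le
    · rintro _ ⟨n, rfl⟩
      exact (hF (n, s n)).2.trans (hz ⟨n + 1, rfl⟩)
  have hK : IsCompact (closure (Subtype.val '' N)) := by
    obtain ⟨b, hb⟩ := bdd hc (hN.image Subtype.val)
    have := nonempty hc
    let _ := WellFoundedLT.toOrderBot (α := α)
    let _ := WellFoundedLT.conditionallyCompleteLinearOrderBot α
    exact (isCompact_Icc (a := ⊥) (b := b)).of_isClosed_subset isClosed_closure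
      (closure_minimal (fun z hz => ⟨bot_le, hb hz⟩) isClosed_Icc)
  rw [Subtype.isCompact_iff]
  convert hK
  ext x
  constructor
  · rintro ⟨y, hy, rfl⟩
    exact closure_subtype.mp hy
  · intro hx
    exact ⟨⟨x, hsub hx⟩, closure_subtype.mpr hx, rfl⟩

theorem result :
    (∀ (Y : Type) [TopologicalSpace Y] [T3Space Y],
      (∀ N : Set Y, N.Countable → IsCompact (closure N)) → #Y ≤ 2 ^ 𝔠 →
      ∃ (X : Type) (_ : TopologicalSpace X), T2Space X ∧ SymWO X ∧
        ∃ f : X → Y, Continuous f ∧ Surjective f) ∧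
    ∀ (α : Type) [LinearOrder α] [WellFoundedLT α],
      ℵ₀ < Order.cof α → (∀ x : α, #(Set.Iic x) < Order.cof α) → #α ≤ 2 ^ 𝔠 → FP α →
      ∃ (X Y : Type) (_ : TopologicalSpace X) (_ : TopologicalSpace Y) (f : X → Y),
        T2Space X ∧ SymWO X ∧ T2Space Y ∧ Continuous f ∧ Surjective f ∧ ¬ SymWO Y := by
  refine ⟨cover, fun α _ _ hc hI hα hF => ?_⟩
  let _ : TopologicalSpace α := Preorder.topology α
  have : OrderTopology α := ⟨rfl⟩
  obtain ⟨X, tX, h1, h2, f, h3, h4⟩ := cover (S α) (S_omega hc) ((mk_subtype_le _).trans hα)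
  exact ⟨X, S α, tX, inferInstance, f, h1, h2, inferInstance, h3, h4, not_symWO hc hI hF⟩

end Pool.Agent.Results.MP_06c979_gt.Image
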